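import Mathlib

set_option autoImplicit false

open Set Filter Topology TopologicalSpace
open scoped ContDiff NNReal Distributions

namespace Pool.Agent.Y459.Symp

variable {E : Type*} [NormedAddCommGroup E] [NormedSpace ℝ E]

/-- `1 + A` is invertible when `‖A‖ < 1`. -/
theorem one_add_equiv [CompleteSpace E] (A : E →L[ℝ] E) (hA : ‖A‖ < 1) :
    ∃ e : E ≃L[ℝ] E, (e : E →L[ℝ] E) = ContinuousLinearMap.id ℝ E + A := by
  have h1 : ‖-A‖ < 1 := by rwa [norm_neg]
  refine ⟨ContinuousLinearEquiv.unitsEquiv ℝ E (Units.oneSub (-A) h1), ?_⟩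
  ext x
  simp [ContinuousLinearEquiv.unitsEquiv_apply]

/-- A smooth perturbation of the identity with small Lipschitz constant is a diffeomorphism. -/
theorem perturb [CompleteSpace E] {g : E → E} {c : ℝ≥0} (hg : LipschitzWith c g) (hc : c < 1)
    (hs : ContDiff ℝ ∞ g) :
    ∃ h : E ≃ₜ E, (∀ x, h x = x + g x) ∧ ContDiff ℝ ∞ h ∧ ContDiff ℝ ∞ h.symm := by
  have happ : ApproximatesLinearOn (fun x => x + g x)
      ((ContinuousLinearEquiv.refl ℝ E : E ≃L[ℝ] E) : E →L[ℝ] E) univ c := by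

    intro x _ y _
    have := hg.norm_sub_le x y
    have h2 : x + g x - (y + g y) - ((ContinuousLinearEquiv.refl ℝ E : E ≃L[ℝ] E) : E →L[ℝ] E) (x - y)
        = g x - g y := by
      simp
      abel
    rw [h2]
    exact this
  have hcc : Subsingleton E ∨ c < ‖(((ContinuousLinearEquiv.refl ℝ E).symm : E ≃L[ℝ] E) : E →L[ℝ] E)‖₊⁻¹ := by
    by_cases hE : Subsingleton E
    · exact Or.inl hE
    · right
      rw [not_subsingleton_iff_nontrivial] at hE
      have : ‖(((ContinuousLinearEquiv.refl ℝ E).symm : E ≃L[ℝ] E) : E →L[ℝ] E)‖₊ = 1 := by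
        have : (((ContinuousLinearEquiv.refl ℝ E).symm : E ≃L[ℝ] E) : E →L[ℝ] E)
          = ContinuousLinearMap.id ℝ E := by ext; simp
        rw [this]
        ext
        simp
      rw [this]
      simpa using hc
  let h : E ≃ₜ E := happ.toHomeomorph _ hcc
  have hh : ∀ x, h x = x + g x := fun x => rfl
  have hsm : ContDiff ℝ ∞ (h : E → E) := by
    have : (h : E → E) = fun x => x + g x := funext hh
    rw [this]
    exact contDiff_id.add hs
  have hder : ∀ x, ∃ e : E ≃L[ℝ] E, HasFDerivAt (h : E → E) (e : E →L[ℝ] E) x := by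
    intro x
    have hn : ‖fderiv ℝ g x‖ < 1 := by
      refine lt_of_le_of_lt (norm_fderiv_le_of_lipschitz ℝ hg) ?_
      exact_mod_cast hc
    obtain ⟨e, he⟩ := one_add_equiv (fderiv ℝ g x) hn
    refine ⟨e, ?_⟩
    rw [he]
    have hd : HasFDerivAt g (fderiv ℝ g x) x :=
      (hs.differentiable (by simp)).differentiableAt.hasFDerivAt
    have : (h : E → E) = fun x => x + g x := funext hh
    rw [this]
    exact (hasFDerivAt_id x).add hd
  choose e he using hder
  exact ⟨h, hh, hsm, h.contDiff_symm he hsm⟩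

/-- The map `(t, p) ↦ (t, p + (sin t / 2) X(p))` is a diffeomorphism when `X` is small. -/
theorem perturb_sin [CompleteSpace E] {X : E → E} {c : ℝ≥0} (hX : LipschitzWith c X) (hc : c ≤ 1 / 4)
    (hb : ∀ p, ‖X p‖ ≤ 1 / 4) (hs : ContDiff ℝ ∞ X) (σ : ℝ) (hσ : |σ| ≤ 1) :
    ∃ h : (ℝ × E) ≃ₜ (ℝ × E), (∀ t p, h (t, p) = (t, p + (σ * Real.sin t) • X p)) ∧
      ContDiff ℝ ∞ h ∧ ContDiff ℝ ∞ h.symm := by
  have hg : LipschitzWith (1/2 : ℝ≥0) (fun q : ℝ × E => ((0 : ℝ), (σ * Real.sin q.1) • X q.2)) := by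
    refine LipschitzWith.of_dist_le_mul ?_
    rintro ⟨t, p⟩ ⟨s, q⟩
    rw [Prod.dist_eq]
    simp only [dist_self]
    have h0 : (0 : ℝ) ≤ dist (t, p) (s, q) := dist_nonneg
    have ht : |t - s| ≤ dist (t, p) (s, q) := by
      rw [Prod.dist_eq, ← Real.dist_eq]; exact le_max_left _ _
    have hp : ‖p - q‖ ≤ dist (t, p) (s, q) := by
      rw [Prod.dist_eq, ← dist_eq_norm]; exact le_max_right _ _
    refine max_le (by positivity) ?_
    rw [dist_eq_norm]
    have h1 : (σ * Real.sin t) • X p - (σ * Real.sin s) • X q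
        = (σ * (Real.sin t - Real.sin s)) • X p + (σ * Real.sin s) • (X p - X q) := by
      rw [smul_sub, mul_sub, sub_smul]; abel
    rw [h1]
    have hsin : |Real.sin t - Real.sin s| ≤ |t - s| := by
      have := Real.lipschitzWith_sin.dist_le_mul t s
      simpa [Real.dist_eq] using this
    calc ‖(σ * (Real.sin t - Real.sin s)) • X p + (σ * Real.sin s) • (X p - X q)‖
        ≤ ‖(σ * (Real.sin t - Real.sin s)) • X p‖ + ‖(σ * Real.sin s) • (X p - X q)‖ := norm_add_le _ _
      _ = |σ| * |Real.sin t - Real.sin s| * ‖X p‖ + |σ| * |Real.sin s| * ‖X p - X q‖ := by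
          rw [norm_smul, norm_smul, Real.norm_eq_abs, Real.norm_eq_abs, abs_mul, abs_mul]
      _ ≤ 1 * |t - s| * (1/4) + 1 * 1 * (1/4 * ‖p - q‖) := by
          have hXl : ‖X p - X q‖ ≤ 1/4 * ‖p - q‖ := by
            refine (hX.norm_sub_le p q).trans ?_
            have : (c : ℝ) ≤ 1/4 := by
              have := NNReal.coe_le_coe.2 hc
              simpa using this
            gcongr
          have := hb p
          have := Real.abs_sin_le_one s
          gcongr
      _ ≤ ((1/2 : ℝ≥0) : ℝ) * dist (t, p) (s, q) := by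
          push_cast
          nlinarith
  have hsm : ContDiff ℝ ∞ (fun q : ℝ × E => ((0 : ℝ), (σ * Real.sin q.1) • X q.2)) := by
    refine contDiff_const.prodMk ?_
    refine ContDiff.smul ?_ (hs.comp contDiff_snd)
    exact contDiff_const.mul (Real.contDiff_sin.comp contDiff_fst)
  obtain ⟨h, hh, h1, h2⟩ := perturb hg (by
    rw [← NNReal.coe_lt_coe]; push_cast; norm_num) hsm
  refine ⟨h, fun t p => ?_, h1, h2⟩
  rw [hh]
  simp

end Pool.Agent.Y459.Symp
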