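import Pool.Agent.Y459.Symp.Defs
import Pool.Agent.Y459.Symp.Perturb

set_option autoImplicit false

open Set Filter Topology TopologicalSpace
open scoped ContDiff NNReal Distributions

namespace Pool.Agent.Y459.Symp

variable {E : Type*} [NormedAddCommGroup E] [NormedSpace ℝ E]

theorem cayley_family [CompleteSpace E] (B : E →ₗ[ℝ] E →ₗ[ℝ] ℝ) (K : Compacts E) (X : E → E)
    (hs : ContDiff ℝ ∞ X) (c : ℝ≥0) (hX : LipschitzWith c X) (hc : c ≤ 1 / 4)
    (hb : ∀ p, ‖X p‖ ≤ 1 / 4) (hK : ∀ p ∉ K, X p = 0)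
    (hsp : ∀ p u v, B (fderiv ℝ X p u) v + B u (fderiv ℝ X p v) = 0) :
    ∃ Ψ : ℝ → SympIn (fun v w => B v w) K,
      ContDiff ℝ ∞ (fun q : ℝ × E => (Ψ q.1).1.1 q.2) ∧
      ∀ t p, (Ψ t).1.1 (p + (-(1/2) * Real.sin t) • X p) = p + ((1/2) * Real.sin t) • X p := by
  obtain ⟨hp, hp1, hp2, hp3⟩ := perturb_sin hX hc hb hs (1/2) (by rw [abs_of_pos] <;> norm_num)
  obtain ⟨hm, hm1, hm2, hm3⟩ := perturb_sin hX hc hb hs (-(1/2)) (by rw [abs_neg, abs_of_pos] <;> norm_num)
  have hm4 : ∀ t z, hm.symm (t, z) = (t, (hm.symm (t, z)).2) := by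
    intro t z
    have h := hm1 (hm.symm (t, z)).1 (hm.symm (t, z)).2
    rw [Prod.mk.eta, Homeomorph.apply_symm_apply] at h
    have := (Prod.ext_iff.1 h).1
    exact Prod.ext this.symm rfl
  have hp4 : ∀ t z, hp.symm (t, z) = (t, (hp.symm (t, z)).2) := by
    intro t z
    have h := hp1 (hp.symm (t, z)).1 (hp.symm (t, z)).2
    rw [Prod.mk.eta, Homeomorph.apply_symm_apply] at h
    have := (Prod.ext_iff.1 h).1
    exact Prod.ext this.symm rfl
  -- forward and backward maps
  let F : ℝ → E → E := fun t z => (hp (hm.symm (t, z))).2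
  let G : ℝ → E → E := fun t z => (hm (hp.symm (t, z))).2
  have hF1 : ∀ t z, hp (hm.symm (t, z)) = (t, F t z) := by
    intro t z
    have : hp (hm.symm (t, z)) = hp (t, (hm.symm (t, z)).2) := by rw [← hm4]
    refine Prod.ext ?_ rfl
    rw [this, hp1]
  have hG1 : ∀ t z, hm (hp.symm (t, z)) = (t, G t z) := by
    intro t z
    have : hm (hp.symm (t, z)) = hm (t, (hp.symm (t, z)).2) := by rw [← hp4]
    refine Prod.ext ?_ rfl
    rw [this, hm1]
  have hGF : ∀ t z, G t (F t z) = z := by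
    intro t z
    have h : hm (hp.symm (t, F t z)) = (t, z) := by
      rw [← hF1, Homeomorph.symm_apply_apply, Homeomorph.apply_symm_apply]
    rw [hG1] at h
    exact (Prod.ext_iff.1 h).2
  have hFG : ∀ t z, F t (G t z) = z := by
    intro t z
    have h : hp (hm.symm (t, G t z)) = (t, z) := by
      rw [← hG1, Homeomorph.symm_apply_apply, Homeomorph.apply_symm_apply]
    rw [hF1] at h
    exact (Prod.ext_iff.1 h).2
  have hFs : ContDiff ℝ ∞ (fun q : ℝ × E => F q.1 q.2) := contDiff_snd.comp (hp2.comp hm3)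
  have hGs : ContDiff ℝ ∞ (fun q : ℝ × E => G q.1 q.2) := contDiff_snd.comp (hm2.comp hp3)
  have hFt : ∀ t, ContDiff ℝ ∞ (F t) := fun t => hFs.comp (contDiff_const.prodMk contDiff_id)
  have hGt : ∀ t, ContDiff ℝ ∞ (G t) := fun t => hGs.comp (contDiff_const.prodMk contDiff_id)
  have hFp : ∀ t p, F t (p + (-(1/2) * Real.sin t) • X p) = p + ((1/2) * Real.sin t) • X p := by
    intro t p
    have h : hp (hm.symm (t, p + (-(1/2) * Real.sin t) • X p)) = (t, p + ((1/2) * Real.sin t) • X p) := by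
      rw [← hm1, Homeomorph.symm_apply_apply, hp1]
    rw [hF1] at h
    exact (Prod.ext_iff.1 h).2
  have hsupp : ∀ t, ∀ z ∉ K, F t z = z := by
    intro t z hz
    have := hFp t z
    rw [hK z hz] at this
    simpa using this
  have hsym : ∀ t z v w, B (fderiv ℝ (F t) z v) (fderiv ℝ (F t) z w) = B v w := by
    intro t z v w
    obtain ⟨p, rfl⟩ : ∃ p, z = p + (-(1/2) * Real.sin t) • X p := by
      refine ⟨(hm.symm (t, z)).2, ?_⟩
      have h := hm1 t (hm.symm (t, z)).2
      rw [← hm4, Homeomorph.apply_symm_apply] at h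
      exact (Prod.ext_iff.1 h).2
    set s : ℝ := (1/2) * Real.sin t with hsdef
    have hs1 : |s| ≤ 1/2 := by
      rw [hsdef, abs_mul, abs_of_pos (by norm_num : (0:ℝ) < 1/2)]
      have := Real.abs_sin_le_one t
      linarith
    have hneg : -(1/2) * Real.sin t = -s := by rw [hsdef]; ring
    have hdX : HasFDerivAt X (fderiv ℝ X p) p :=
      (hs.differentiable (by simp)).differentiableAt.hasFDerivAt
    have hXn : ‖fderiv ℝ X p‖ ≤ 1/4 := by
      refine (norm_fderiv_le_of_lipschitz ℝ hX).trans ?_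
      have := NNReal.coe_le_coe.2 hc
      simpa using this
    -- the two sides
    have hd1 : HasFDerivAt (fun p => p + (-s) • X p) (ContinuousLinearMap.id ℝ E + (-s) • fderiv ℝ X p) p :=
      (hasFDerivAt_id p).add (hdX.const_smul (-s))
    have hd2 : HasFDerivAt (fun p => p + s • X p) (ContinuousLinearMap.id ℝ E + s • fderiv ℝ X p) p :=
      (hasFDerivAt_id p).add (hdX.const_smul s)
    have hdF : HasFDerivAt (F t) (fderiv ℝ (F t) (p + (-s) • X p)) (p + (-s) • X p) :=
      ((hFt t).differentiable (by simp)).differentiableAt.hasFDerivAt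
    have hcomp := hdF.comp p hd1
    have heq : (F t) ∘ (fun p => p + (-s) • X p) = fun p => p + s • X p := by
      funext q
      have := hFp t q
      rw [hneg] at this
      exact this
    rw [heq] at hcomp
    have huniq := hcomp.unique hd2
    have hkey : ∀ u, fderiv ℝ (F t) (p + (-s) • X p) (u + (-s) • fderiv ℝ X p u) = u + s • fderiv ℝ X p u := by
      intro u
      have := congrArg (fun T : E →L[ℝ] E => T u) huniq
      simpa using this
    -- surjectivity
    have hnorm : ‖(-s) • fderiv ℝ X p‖ < 1 := by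
      rw [norm_smul, norm_neg, Real.norm_eq_abs]
      calc |s| * ‖fderiv ℝ X p‖ ≤ 1/2 * (1/4) := by gcongr
        _ < 1 := by norm_num
    obtain ⟨e, he⟩ := one_add_equiv ((-s) • fderiv ℝ X p) hnorm
    have hsurj : ∀ v, ∃ u, u + (-s) • fderiv ℝ X p u = v := by
      intro v
      refine ⟨e.symm v, ?_⟩
      have := congrArg (fun T : E →L[ℝ] E => T (e.symm v)) he
      simp only [ContinuousLinearEquiv.coe_coe, ContinuousLinearEquiv.apply_symm_apply] at this
      conv_rhs => rw [this]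
      simp
    obtain ⟨v', rfl⟩ := hsurj v
    obtain ⟨w', rfl⟩ := hsurj w
    rw [hneg, hkey, hkey]
    have h0 := hsp p v' w'
    simp only [map_add, map_smul, LinearMap.add_apply, LinearMap.smul_apply, smul_eq_mul]
    linear_combination (2 * s) * h0
  refine ⟨fun t => ⟨⟨⟨F t, G t, hGF t, hFG t⟩, hFt t, hGt t, hsym t, K, hsupp t⟩, hsupp t⟩, hFs, hFp⟩

theorem exists_field [CompleteSpace E] (B : E →ₗ[ℝ] E →ₗ[ℝ] ℝ) (K : Compacts E)
    (hconv : Convex ℝ (K : Set E)) (ψ : SympIn (fun v w => B v w) K)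
    (h0 : ∀ z, ‖ψ.1.1 z - z‖ ≤ 1/4)
    (h1 : ∀ z, ‖fderiv ℝ ψ.1.1 z - ContinuousLinearMap.id ℝ E‖ ≤ 1/8) :
    ∃ X : E → E, ContDiff ℝ ∞ X ∧ LipschitzWith (1/4) X ∧ (∀ p, ‖X p‖ ≤ 1/4) ∧
      (∀ p ∉ K, X p = 0) ∧ (∀ p u v, B (fderiv ℝ X p u) v + B u (fderiv ℝ X p v) = 0) ∧
      ∀ z, ∃ p, p + (-(1/2 : ℝ)) • X p = z ∧ p + (1/2 : ℝ) • X p = ψ.1.1 z := by
  revert h0 h1
  obtain ⟨⟨φ, hφ1, hφ2, hφ3, -⟩, hφ4⟩ := ψ
  intro h0 h1
  change ∀ z, ‖φ z - z‖ ≤ 1/4 at h0
  change ∀ z, ‖fderiv ℝ φ z - ContinuousLinearMap.id ℝ E‖ ≤ 1/8 at h1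
  change ∀ z ∉ K, φ z = z at hφ4
  change ∃ X : E → E, ContDiff ℝ ∞ X ∧ LipschitzWith (1/4) X ∧ (∀ p, ‖X p‖ ≤ 1/4) ∧
      (∀ p ∉ K, X p = 0) ∧ (∀ p u v, B (fderiv ℝ X p u) v + B u (fderiv ℝ X p v) = 0) ∧
      ∀ z, ∃ p, p + (-(1/2 : ℝ)) • X p = z ∧ p + (1/2 : ℝ) • X p = φ z
  let g : E → E := fun z => φ z - z
  have hgs : ContDiff ℝ ∞ g := hφ1.sub contDiff_id
  have hφd : ∀ z, HasFDerivAt φ (fderiv ℝ φ z) z := fun z =>
    (hφ1.differentiable (by simp)).differentiableAt.hasFDerivAt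
  have hgd : ∀ z, HasFDerivAt g (fderiv ℝ φ z - ContinuousLinearMap.id ℝ E) z := fun z =>
    (hφd z).sub (hasFDerivAt_id z)
  have hgl : LipschitzWith (1/8) g := by
    refine lipschitzWith_of_nnnorm_fderiv_le (hgs.differentiable (by simp)) fun z => ?_
    rw [(hgd z).fderiv, ← NNReal.coe_le_coe]
    simpa using h1 z
  have hgl2 : LipschitzWith (1/16) (fun z => (1/2 : ℝ) • g z) := by
    refine LipschitzWith.of_dist_le_mul fun x y => ?_
    rw [dist_eq_norm, ← smul_sub, norm_smul]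
    have := hgl.norm_sub_le x y
    rw [dist_eq_norm]
    push_cast at this ⊢
    rw [Real.norm_of_nonneg (by norm_num)]
    linarith
  obtain ⟨h, hh, hs1, hs2⟩ := perturb hgl2 (by rw [← NNReal.coe_lt_coe]; push_cast; norm_num)
    (hgs.const_smul (1/2 : ℝ))
  have hsymm : ∀ x y, ‖h.symm x - h.symm y‖ ≤ 2 * ‖x - y‖ := by
    intro x y
    have h3 : ∀ a b, ‖a - b‖ ≤ 2 * ‖h a - h b‖ := by
      intro a b
      have h4 : a - b = (h a - h b) - ((1/2 : ℝ) • g a - (1/2 : ℝ) • g b) := by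
        rw [hh, hh]; abel
      have h5 := hgl2.norm_sub_le a b
      push_cast at h5
      have h6 : ‖a - b‖ ≤ ‖h a - h b‖ + ‖(1/2 : ℝ) • g a - (1/2 : ℝ) • g b‖ := by
        conv_lhs => rw [h4]
        exact norm_sub_le _ _
      have := norm_nonneg (a - b)
      linarith
    have := h3 (h.symm x) (h.symm y)
    rwa [Homeomorph.apply_symm_apply, Homeomorph.apply_symm_apply] at this
  have hKK : ∀ z ∈ K, φ z ∈ K := by
    intro z hz
    by_contra hcon
    have := hφ4 _ hcon
    have := φ.injective this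
    rw [this] at hcon
    exact hcon hz
  refine ⟨fun p => g (h.symm p), hgs.comp hs2, ?_, fun p => h0 _, ?_, ?_, ?_⟩
  · refine LipschitzWith.of_dist_le_mul fun x y => ?_
    rw [dist_eq_norm, dist_eq_norm]
    have h5 := hgl.norm_sub_le (h.symm x) (h.symm y)
    have h6 := hsymm x y
    push_cast at h5 ⊢
    linarith
  · intro p hp
    by_cases hz : h.symm p ∈ K
    · exfalso
      apply hp
      have h7 : p = h (h.symm p) := (h.apply_symm_apply p).symm
      have h8 : p = (1/2 : ℝ) • h.symm p + (1/2 : ℝ) • φ (h.symm p) := by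
        conv_lhs => rw [h7, hh]
        simp only [g, smul_sub]
        have : (h.symm p) = (1/2 : ℝ) • h.symm p + (1/2 : ℝ) • h.symm p := by
          rw [← add_smul]; norm_num
        nth_rw 1 [this]
        abel
      rw [h8]
      exact hconv hz (hKK _ hz) (by norm_num) (by norm_num) (by norm_num)
    · change φ (h.symm p) - h.symm p = 0
      rw [hφ4 _ hz, sub_self]
  · intro p u v
    set z := h.symm p with hz
    have hX : ContDiff ℝ ∞ (fun p => g (h.symm p)) := hgs.comp hs2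
    have hXd : HasFDerivAt (fun p => g (h.symm p)) (fderiv ℝ (fun p => g (h.symm p)) p) (h z) := by
      rw [hz, h.apply_symm_apply]
      exact (hX.differentiable (by simp)).differentiableAt.hasFDerivAt
    have hhd : HasFDerivAt h (ContinuousLinearMap.id ℝ E + (1/2 : ℝ) • (fderiv ℝ φ z - ContinuousLinearMap.id ℝ E)) z := by
      have : (h : E → E) = fun x => x + (1/2 : ℝ) • g x := funext hh
      rw [this]
      exact (hasFDerivAt_id z).add ((hgd z).const_smul (1/2 : ℝ))
    have hc := hXd.comp z hhd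
    have heq : (fun p => g (h.symm p)) ∘ h = g := by
      funext x
      simp
    rw [heq] at hc
    have huniq := hc.unique (hgd z)
    have hn : ‖(1/2 : ℝ) • (fderiv ℝ φ z - ContinuousLinearMap.id ℝ E)‖ < 1 := by
      rw [norm_smul, Real.norm_of_nonneg (by norm_num)]
      have := h1 z
      linarith
    obtain ⟨e, he⟩ := one_add_equiv _ hn
    have hsurj : ∀ v, ∃ u, u + (1/2 : ℝ) • (fderiv ℝ φ z u - u) = v := by
      intro v
      refine ⟨e.symm v, ?_⟩
      have := congrArg (fun T : E →L[ℝ] E => T (e.symm v)) he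
      simp only [ContinuousLinearEquiv.coe_coe, ContinuousLinearEquiv.apply_symm_apply] at this
      conv_rhs => rw [this]
      simp
    have hkey : ∀ u, fderiv ℝ (fun p => g (h.symm p)) p (u + (1/2 : ℝ) • (fderiv ℝ φ z u - u)) = fderiv ℝ φ z u - u := by
      intro u
      have := congrArg (fun T : E →L[ℝ] E => T u) huniq
      simpa using this
    obtain ⟨u', rfl⟩ := hsurj u
    obtain ⟨v', rfl⟩ := hsurj v
    rw [hkey, hkey]
    have h9 := hφ3 z u' v'
    simp only at h9
    simp only [map_add, map_sub, map_smul, LinearMap.add_apply, LinearMap.sub_apply, LinearMap.smul_apply, smul_eq_mul]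
    linear_combination h9
  · intro z
    refine ⟨h z, ?_, ?_⟩
    · simp only [h.symm_apply_apply]
      rw [hh]
      simp
    · simp only [h.symm_apply_apply]
      rw [hh]
      simp only [g]
      rw [add_assoc, ← add_smul]
      norm_num

end Pool.Agent.Y459.Symp
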