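import Pool.Agent.Y459.Symp.Path

set_option autoImplicit false

open Set Filter Topology TopologicalSpace
open scoped ContDiff NNReal Distributions

namespace Pool.Agent.Y459.Symp

variable {E : Type*} [NormedAddCommGroup E] [NormedSpace ℝ E]

/-- The `1`-jet of a symplectomorphism along `K`. -/
noncomputable def jet (Ω : E → E → ℝ) (K : Compacts E) (φ : SympIn Ω K) :
    C(K, E × (E →L[ℝ] E)) where
  toFun z := (φ.1.1 z, fderiv ℝ φ.1.1 z)
  continuous_toFun :=
    (φ.1.2.1.continuous.comp continuous_subtype_val).prodMk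
      ((φ.1.2.1.continuous_fderiv (by simp)).comp continuous_subtype_val)

theorem fderiv_off {Ω : E → E → ℝ} {K : Compacts E} (φ : SympIn Ω K) {z : E} (hz : z ∉ K) :
    fderiv ℝ φ.1.1 z = ContinuousLinearMap.id ℝ E := by
  have hopen : IsOpen ((K : Set E)ᶜ) := K.isCompact.isClosed.isOpen_compl
  have : (φ.1.1 : E → E) =ᶠ[𝓝 z] id := by
    filter_upwards [hopen.mem_nhds hz] with w hw
    exact φ.2 w hw
  rw [this.fderiv_eq, fderiv_id]

theorem exists_bound {Ω : E → E → ℝ} {K : Compacts E} (φ : SympIn Ω K) :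
    ∃ M : ℝ, 0 ≤ M ∧ ∀ z, ‖fderiv ℝ φ.1.1.symm z‖ ≤ M := by
  have hcont : Continuous (fun z => fderiv ℝ φ.1.1.symm z) :=
    φ.1.2.2.1.continuous_fderiv (by simp)
  obtain ⟨M, hM⟩ := K.isCompact.exists_bound_of_continuousOn hcont.continuousOn
  refine ⟨max M 1, le_trans zero_le_one (le_max_right _ _), fun z => ?_⟩
  by_cases hz : z ∈ K
  · exact (hM z hz).trans (le_max_left _ _)
  · have := fderiv_off (invIn φ) hz
    change fderiv ℝ φ.1.1.symm z = _ at this
    rw [this]
    exact (ContinuousLinearMap.norm_id_le).trans (le_max_right _ _)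

theorem joined_of_jet [CompleteSpace E] (B : E →ₗ[ℝ] E →ₗ[ℝ] ℝ) (K : Compacts E)
    (hconv : Convex ℝ (K : Set E)) (φ : SympIn (fun v w => B v w) K) :
    ∃ δ > 0, ∀ φ' : SympIn (fun v w => B v w) K, dist (jet _ K φ') (jet _ K φ) < δ →
      Joined φ φ' := by
  obtain ⟨M, hM0, hM⟩ := exists_bound φ
  refine ⟨1 / (8 * (M + 1)), by positivity, fun φ' hφ' => ?_⟩
  have hpt : ∀ z : K, dist (jet _ K φ' z) (jet _ K φ z) < 1 / (8 * (M + 1)) := fun z =>
    lt_of_le_of_lt (ContinuousMap.dist_apply_le_dist z) hφ'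
  have hle : 1 / (8 * (M + 1)) ≤ 1 / 4 := by
    rw [div_le_div_iff₀ (by positivity) (by norm_num)]
    linarith
  refine joined_of_close B K hconv φ φ' (fun z => ?_) (fun z => ?_)
  · by_cases hz : z ∈ K
    · have h := hpt ⟨z, hz⟩
      have h2 : dist (φ'.1.1 z) (φ.1.1 z) ≤ dist (jet _ K φ' ⟨z, hz⟩) (jet _ K φ ⟨z, hz⟩) :=
        le_max_left _ _
      rw [← dist_eq_norm]
      linarith
    · rw [φ'.2 z hz, φ.2 z hz, sub_self, norm_zero]
      norm_num
  · by_cases hz : z ∈ K
    · have h := hpt ⟨z, hz⟩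
      have h2 : dist (fderiv ℝ φ'.1.1 z) (fderiv ℝ φ.1.1 z)
          ≤ dist (jet _ K φ' ⟨z, hz⟩) (jet _ K φ ⟨z, hz⟩) := le_max_right _ _
      rw [dist_eq_norm] at h2
      refine (ContinuousLinearMap.opNorm_comp_le _ _).trans ?_
      have h3 := hM (φ.1.1 z)
      have h4 : ‖fderiv ℝ φ'.1.1 z - fderiv ℝ φ.1.1 z‖ ≤ 1 / (8 * (M + 1)) := by linarith
      calc ‖fderiv ℝ φ'.1.1 z - fderiv ℝ φ.1.1 z‖ * ‖fderiv ℝ φ.1.1.symm (φ.1.1 z)‖
          ≤ 1 / (8 * (M + 1)) * M := by gcongr
        _ ≤ 1 / (8 * (M + 1)) * (M + 1) := by gcongr; linarith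
        _ = 1 / 8 := by field_simp
    · rw [fderiv_off φ' hz, fderiv_off φ hz, sub_self, ContinuousLinearMap.zero_comp, norm_zero]
      norm_num

theorem countable_in [FiniteDimensional ℝ E] (B : E →ₗ[ℝ] E →ₗ[ℝ] ℝ) (K : Compacts E)
    (hconv : Convex ℝ (K : Set E)) :
    ∃ S : Set (SympIn (fun v w => B v w) K), S.Countable ∧ ∀ φ, ∃ ψ ∈ S, Joined ψ φ := by
  have : CompleteSpace E := FiniteDimensional.complete ℝ E
  have : LocallyCompactSpace E := inferInstance
  choose δ hδ hδ2 using joined_of_jet B K hconv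
  let R : Set (C(K, E × (E →L[ℝ] E))) := range (jet (fun v w => B v w) K)
  have hpre : ∀ y : R, ∃ φ, jet (fun v w => B v w) K φ = y.1 := fun y => y.2
  choose s hs using hpre
  obtain ⟨T, hT1, hT2⟩ := TopologicalSpace.countable_cover_nhds (α := R)
    (f := fun y => Metric.ball y (δ (s y))) (fun y => Metric.ball_mem_nhds y (hδ _))
  refine ⟨s '' T, hT1.image s, fun φ => ?_⟩
  have hmem : (⟨jet _ K φ, mem_range_self φ⟩ : R) ∈ ⋃ x ∈ T, Metric.ball x (δ (s x)) := by
    rw [hT2]; exact mem_univ _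
  simp only [mem_iUnion] at hmem
  obtain ⟨y, hy, hy2⟩ := hmem
  refine ⟨s y, mem_image_of_mem s hy, hδ2 _ _ ?_⟩
  rw [hs y]
  exact hy2

theorem continuous_incl (Ω : E → E → ℝ) (K : Compacts E) :
    Continuous (fun φ : SympIn Ω K => φ.1) := by
  rw [continuous_iff_coinduced_le]
  exact le_iSup (fun K : Compacts E =>
    TopologicalSpace.coinduced (fun φ : SympIn Ω K => φ.1) inferInstance) K

theorem countable_components [FiniteDimensional ℝ E] (B : E →ₗ[ℝ] E →ₗ[ℝ] ℝ) :
    Countable (ZerothHomotopy (SympCt (fun v w => B v w))) := by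
  have : ProperSpace E := FiniteDimensional.proper ℝ E
  let K : ℕ → Compacts E := fun R => ⟨Metric.closedBall 0 R, isCompact_closedBall 0 _⟩
  have hconv : ∀ R, Convex ℝ (K R : Set E) := fun R => convex_closedBall 0 _
  choose S hS1 hS2 using fun R => countable_in B (K R) (hconv R)
  let U : Set (SympCt (fun v w => B v w)) := ⋃ R : ℕ, (fun φ => φ.1) '' S R
  have hU : U.Countable := countable_iUnion fun R => (hS1 R).image _
  have : Countable U := hU.to_subtype
  have hsurj : Function.Surjective (fun u : U => (Quotient.mk (pathSetoid _) u.1 :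
      ZerothHomotopy (SympCt (fun v w => B v w)))) := by
    intro q
    induction q using Quotient.inductionOn with
    | h φ =>
      obtain ⟨L, hL⟩ := φ.2.2.2.2
      obtain ⟨R, hR⟩ := L.isCompact.isBounded.subset_closedBall (0 : E)
      obtain ⟨N, hN⟩ := exists_nat_ge R
      have hsub : (L : Set E) ⊆ (K N : Set E) := hR.trans (Metric.closedBall_subset_closedBall hN)
      let φ' : SympIn (fun v w => B v w) (K N) := ⟨φ, fun z hz => hL z fun h => hz (hsub h)⟩
      obtain ⟨ψ, hψ, hj⟩ := hS2 N φ'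
      refine ⟨⟨ψ.1, mem_iUnion.2 ⟨N, mem_image_of_mem _ hψ⟩⟩, ?_⟩
      apply Quotient.sound
      exact hj.map (continuous_incl _ (K N))
  exact hsurj.countable

/-- The standard form as a bilinear map. -/
noncomputable def stdBilin (n : ℕ) : R2n n →ₗ[ℝ] R2n n →ₗ[ℝ] ℝ :=
  LinearMap.mk₂ ℝ (stdForm n)
    (fun a b c => by
      simp only [stdForm, Prod.fst_add, Prod.snd_add, PiLp.add_apply, ← Finset.sum_add_distrib]
      exact Finset.sum_congr rfl fun i _ => by ring)
    (fun r a b => by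
      simp only [stdForm, Prod.smul_fst, Prod.smul_snd, PiLp.smul_apply, smul_eq_mul,
        Finset.mul_sum]
      exact Finset.sum_congr rfl fun i _ => by ring)
    (fun a b c => by
      simp only [stdForm, Prod.fst_add, Prod.snd_add, PiLp.add_apply, ← Finset.sum_add_distrib]
      exact Finset.sum_congr rfl fun i _ => by ring)
    (fun r a b => by
      simp only [stdForm, Prod.smul_fst, Prod.smul_snd, PiLp.smul_apply, smul_eq_mul,
        Finset.mul_sum]
      exact Finset.sum_congr rfl fun i _ => by ring)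

/-- The components of the group of compactly supported symplectomorphisms of `ℝ^{2n}` form a
countable set. -/
theorem countable_std (n : ℕ) : Countable (ZerothHomotopy (SympCt (stdForm n))) :=
  countable_components (stdBilin n)

end Pool.Agent.Y459.Symp
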