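import Mathlib

set_option autoImplicit false

open TopologicalSpace
open scoped ContDiff Distributions

namespace Pool.Agent.Y459.Symp

/-- `ℝ^{2n}` with coordinates `(x, y)`, `x, y ∈ ℝ^n`. -/
abbrev R2n (n : ℕ) : Type := EuclideanSpace ℝ (Fin n) × EuclideanSpace ℝ (Fin n)

/-- The standard symplectic form `∑ dx_i ∧ dy_i` of `ℝ^{2n}`. -/
noncomputable def stdForm (n : ℕ) (v w : R2n n) : ℝ :=
  ∑ i : Fin n, (v.1 i * w.2 i - w.1 i * v.2 i)

variable {E : Type*} [NormedAddCommGroup E] [NormedSpace ℝ E]

/-- The group of all smooth diffeomorphisms of `E` that preserve the (constant) form `Ω` and are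
equal to the identity outside some compact set. -/
def SympCt (Ω : E → E → ℝ) : Subgroup (Equiv.Perm E) where
  carrier := {φ | ContDiff ℝ ∞ φ ∧ ContDiff ℝ ∞ φ.symm ∧
    (∀ z v w, Ω (fderiv ℝ φ z v) (fderiv ℝ φ z w) = Ω v w) ∧
    ∃ K : Compacts E, ∀ z ∉ K, φ z = z}
  one_mem' := by
    refine ⟨contDiff_id, contDiff_id, fun z v w => ?_, ⊥, fun z _ => rfl⟩
    have : ((1 : Equiv.Perm E) : E → E) = id := rfl
    rw [this, fderiv_id]
    rfl
  mul_mem' := by
    rintro φ ψ ⟨h1, h2, h3, K, hK⟩ ⟨k1, k2, k3, L, hL⟩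
    refine ⟨h1.comp k1, k2.comp h2, fun z v w => ?_, K ⊔ L, fun z hz => ?_⟩
    · have hd : fderiv ℝ (φ * ψ : Equiv.Perm E) z = (fderiv ℝ φ (ψ z)).comp (fderiv ℝ ψ z) :=
        fderiv_comp z (h1.differentiable (by simp)).differentiableAt
          (k1.differentiable (by simp)).differentiableAt
      rw [hd]
      exact (h3 _ _ _).trans (k3 z v w)
    · have hz' : z ∉ K ∧ z ∉ L := by
        rw [← SetLike.mem_coe, Compacts.coe_sup] at hz
        exact ⟨fun h => hz (Or.inl h), fun h => hz (Or.inr h)⟩
      change φ (ψ z) = z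
      rw [hL z hz'.2, hK z hz'.1]
  inv_mem' := by
    rintro φ ⟨h1, h2, h3, K, hK⟩
    refine ⟨h2, h1, fun z v w => ?_, K, fun z hz => ?_⟩
    · have hd : (fderiv ℝ φ (φ.symm z)).comp (fderiv ℝ φ.symm z) = ContinuousLinearMap.id ℝ E := by
        rw [← fderiv_comp z (h1.differentiable (by simp)).differentiableAt
          (h2.differentiable (by simp)).differentiableAt]
        have : (φ : E → E) ∘ φ.symm = id := funext fun x => φ.apply_symm_apply x
        rw [this, fderiv_id]
      have hv : ∀ u, fderiv ℝ φ (φ.symm z) (fderiv ℝ φ.symm z u) = u := fun u => by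
        have := congrArg (fun T : E →L[ℝ] E => T u) hd
        simpa using this
      have h := h3 (φ.symm z) (fderiv ℝ φ.symm z v) (fderiv ℝ φ.symm z w)
      rw [hv, hv] at h
      exact h.symm
    · change φ.symm z = z
      rw [Equiv.symm_apply_eq]
      exact (hK z hz).symm

/-- The elements of `SympCt Ω` that are supported in the compact set `K`. -/
def SympIn (Ω : E → E → ℝ) (K : Compacts E) : Type _ :=
  {φ : SympCt Ω // ∀ z ∉ K, φ.1 z = z}

/-- The displacement `z ↦ φ z - z`, a smooth map that vanishes off `K`. -/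
def disp (Ω : E → E → ℝ) (K : Compacts E) (φ : SympIn Ω K) : 𝓓_{K}(E, E) where
  toFun z := φ.1.1 z - z
  contDiff' := φ.1.2.1.sub contDiff_id
  zero_on_compl' z hz := sub_eq_zero.2 (φ.2 z hz)

/-- The `C^∞` topology on the symplectomorphisms supported in `K`: uniform convergence of the
displacements together with all their iterated derivatives. -/
noncomputable instance (Ω : E → E → ℝ) (K : Compacts E) : TopologicalSpace (SympIn Ω K) :=
  .induced (disp Ω K) inferInstance

/-- The direct limit topology. -/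
noncomputable instance (Ω : E → E → ℝ) : TopologicalSpace (SympCt Ω) :=
  ⨆ K : Compacts E, .coinduced (fun φ : SympIn Ω K => φ.1) inferInstance

end Pool.Agent.Y459.Symp
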