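import Mathlib

set_option autoImplicit false

open Set Filter Topology TopologicalSpace
open scoped ContDiff NNReal

namespace Pool.Agent.Y459.Symp

variable {V : Type*} [NormedAddCommGroup V] [NormedSpace ℝ V] [FiniteDimensional ℝ V]

/-- An injective endomorphism of a finite-dimensional space is an equivalence. -/
theorem exists_equiv_of_injective (A : V →L[ℝ] V) (hA : ∀ v, A v = 0 → v = 0) :
    ∃ e : V ≃L[ℝ] V, (e : V →L[ℝ] V) = A := by
  have hinj : Function.Injective (A : V →ₗ[ℝ] V) := by
    rw [injective_iff_map_eq_zero]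
    exact hA
  let e := (LinearEquiv.ofInjectiveEndo (A : V →ₗ[ℝ] V) hinj).toContinuousLinearEquiv
  refine ⟨e, ?_⟩
  ext v
  simp [e]

theorem strict {f : V → V} (hf : ContDiff ℝ ∞ f) (hA : ∀ x v, fderiv ℝ f x v = 0 → v = 0) (x : V) :
    ∃ e : V ≃L[ℝ] V, HasStrictFDerivAt f (e : V →L[ℝ] V) x := by
  obtain ⟨e, he⟩ := exists_equiv_of_injective (fderiv ℝ f x) (hA x)
  refine ⟨e, ?_⟩
  rw [he]
  exact (hf.contDiffAt).hasStrictFDerivAt (by simp)

theorem isOpenMap_of_injective {f : V → V} (hf : ContDiff ℝ ∞ f)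
    (hA : ∀ x v, fderiv ℝ f x v = 0 → v = 0) : IsOpenMap f := by
  have : CompleteSpace V := FiniteDimensional.complete ℝ V
  rw [isOpenMap_iff_nhds_le]
  intro x
  obtain ⟨e, he⟩ := strict hf hA x
  exact he.map_nhds_eq_of_equiv.ge

theorem diffeo_of_bijective {f : V → V} (hf : ContDiff ℝ ∞ f)
    (hA : ∀ x v, fderiv ℝ f x v = 0 → v = 0) (hb : Function.Bijective f) :
    ∃ h : V ≃ₜ V, (∀ x, h x = f x) ∧ ContDiff ℝ ∞ h ∧ ContDiff ℝ ∞ h.symm := by
  have : CompleteSpace V := FiniteDimensional.complete ℝ V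
  let h : V ≃ₜ V := (Equiv.ofBijective f hb).toHomeomorphOfContinuousOpen hf.continuous
    (isOpenMap_of_injective hf hA)
  have hh : ∀ x, h x = f x := fun x => rfl
  have hfun : (h : V → V) = f := funext hh
  have hsm : ContDiff ℝ ∞ (h : V → V) := by rw [hfun]; exact hf
  choose e he using strict hf hA
  refine ⟨h, hh, hsm, h.contDiff_symm (f₀' := e) (fun a => ?_) hsm⟩
  rw [hfun]
  exact (he a).hasFDerivAt

/-- Global inversion: a smooth map with injective differentials that is the identity off a compact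
set is bijective. -/
theorem bijective_of_compact {f : V → V} (hf : ContDiff ℝ ∞ f)
    (hA : ∀ x v, fderiv ℝ f x v = 0 → v = 0) {K : Set V} (hK : IsCompact K)
    (hid : ∀ x ∉ K, f x = x) : Function.Bijective f := by
  have : CompleteSpace V := FiniteDimensional.complete ℝ V
  have hopen := isOpenMap_of_injective hf hA
  have hcl : ∀ x ∈ closure Kᶜ, f x = x := by
    intro x hx
    have hc : IsClosed {x | f x = x} := isClosed_eq hf.continuous continuous_id
    exact (closure_minimal (fun y hy => hid y hy) hc) hx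
  have hclosedmap : ∀ C : Set V, IsClosed C → IsClosed (f '' C) := by
    intro C hC
    have heq : f '' C = f '' (C ∩ K) ∪ (C ∩ closure Kᶜ) := by
      ext y
      constructor
      · rintro ⟨x, hx, rfl⟩
        by_cases hxK : x ∈ K
        · exact Or.inl ⟨x, ⟨hx, hxK⟩, rfl⟩
        · right
          rw [hid x hxK]
          exact ⟨hx, subset_closure hxK⟩
      · rintro (⟨x, hx, rfl⟩ | hy)
        · exact ⟨x, hx.1, rfl⟩
        · exact ⟨y, hy.1, hcl y hy.2⟩
    rw [heq]
    exact ((hK.inter_left hC).image hf.continuous).isClosed.union (hC.inter isClosed_closure)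
  have hsurj : Function.Surjective f := by
    rw [← range_eq_univ]
    have h1 : IsClosed (range f) := by
      rw [← image_univ]; exact hclosedmap _ isClosed_univ
    have h2 : IsOpen (range f) := hopen.isOpen_range
    exact IsClopen.eq_univ ⟨h1, h2⟩ ⟨f 0, mem_range_self 0⟩
  refine ⟨?_, hsurj⟩
  by_cases hsub : Subsingleton V
  · exact fun x y _ => Subsingleton.elim x y
  rw [not_subsingleton_iff_nontrivial] at hsub
  let D : Set V := {y | ∃ x x', x ≠ x' ∧ f x = y ∧ f x' = y}
  have hDopen : IsOpen D := by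
    rw [isOpen_iff_mem_nhds]
    rintro y ⟨x, x', hne, hx, hx'⟩
    obtain ⟨U, U', hU, hU', hxU, hxU', hdisj⟩ := t2_separation hne
    have h1 : f '' U ∈ 𝓝 y := (hopen U hU).mem_nhds ⟨x, hxU, hx⟩
    have h2 : f '' U' ∈ 𝓝 y := (hopen U' hU').mem_nhds ⟨x', hxU', hx'⟩
    filter_upwards [h1, h2]
    rintro w ⟨a, ha, rfl⟩ ⟨b, hb, hab⟩
    exact ⟨a, b, fun h => (Set.disjoint_left.1 hdisj ha) (h ▸ hb), rfl, hab⟩
  have hDclosed : IsClosed D := by
    rw [← isOpen_compl_iff, isOpen_iff_mem_nhds]
    intro y hy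
    obtain ⟨x, rfl⟩ := hsurj y
    obtain ⟨e, he⟩ := strict hf hA x
    let P := he.toOpenPartialHomeomorph f
    have hxP : x ∈ P.source := he.mem_toOpenPartialHomeomorph_source
    have hPinj : InjOn f P.source := by
      have := P.injOn
      rwa [he.toOpenPartialHomeomorph_coe] at this
    have h1 : IsClosed (f '' P.sourceᶜ) := hclosedmap _ P.open_source.isClosed_compl
    have h2 : f x ∉ f '' P.sourceᶜ := by
      rintro ⟨x', hx', hxx⟩
      apply hy
      refine ⟨x, x', ?_, rfl, hxx⟩
      rintro rfl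
      exact hx' hxP
    filter_upwards [h1.isOpen_compl.mem_nhds h2]
    rintro w hw ⟨a, b, hab, ha, hb⟩
    have ha' : a ∈ P.source := by
      by_contra h
      exact hw ⟨a, h, ha⟩
    have hb' : b ∈ P.source := by
      by_contra h
      exact hw ⟨b, h, hb⟩
    exact hab (hPinj ha' hb' (ha.trans hb.symm))
  have hDne : D ≠ univ := by
    have hc : IsCompact (K ∪ f '' K) := hK.union (hK.image hf.continuous)
    have : NoncompactSpace V := NormedSpace.noncompactSpace ℝ V
    obtain ⟨y, hy⟩ := (Set.ne_univ_iff_exists_notMem _).1 hc.ne_univ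
    intro huniv
    have hyD : y ∈ D := huniv ▸ mem_univ y
    obtain ⟨a, b, hab, ha, hb⟩ := hyD
    have key : ∀ a, f a = y → a = y := by
      intro a ha
      by_cases haK : a ∈ K
      · exact absurd (Or.inr ⟨a, haK, ha⟩) hy
      · rw [hid a haK] at ha
        exact ha
    exact hab ((key a ha).trans (key b hb).symm)
  have hDempty : D = ∅ := by
    rcases isClopen_iff.1 ⟨hDclosed, hDopen⟩ with h | h
    · exact h
    · exact absurd h hDne
  intro x x' hxx
  by_contra hne
  have : f x ∈ D := ⟨x, x', hne, rfl, hxx.symm⟩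
  rw [hDempty] at this
  exact this

end Pool.Agent.Y459.Symp
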