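import Pool.Agent.Y459.Symp.Count
import Pool.Agent.Y459.Symp.Global

set_option autoImplicit false

open Set Filter Topology TopologicalSpace
open scoped ContDiff NNReal Distributions

namespace Pool.Agent.Y459.Symp

variable {E : Type*} [NormedAddCommGroup E] [NormedSpace ℝ E] [FiniteDimensional ℝ E]

/-- The family `(t, p) ↦ (t, p + σ(t) X(p))` is a diffeomorphism if each member of the family has
injective differentials. -/
theorem perturb_family (X : E → E) (hs : ContDiff ℝ ∞ X) (K : Set E) (hKc : IsCompact K)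
    (hK : ∀ p ∉ K, X p = 0) (σ : ℝ → ℝ) (hσ : ContDiff ℝ ∞ σ)
    (hinj : ∀ t p u, u + σ t • fderiv ℝ X p u = 0 → u = 0) :
    ∃ h : (ℝ × E) ≃ₜ (ℝ × E), (∀ t p, h (t, p) = (t, p + σ t • X p)) ∧
      ContDiff ℝ ∞ h ∧ ContDiff ℝ ∞ h.symm := by
  let f : ℝ × E → ℝ × E := fun q => (q.1, q.2 + σ q.1 • X q.2)
  have hXd : ∀ p, HasFDerivAt X (fderiv ℝ X p) p := fun p =>
    (hs.differentiable (by simp)).differentiableAt.hasFDerivAt
  have hf : ContDiff ℝ ∞ f := by
    refine contDiff_fst.prodMk (contDiff_snd.add ?_)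
    exact (hσ.comp contDiff_fst).smul (hs.comp contDiff_snd)
  have hslice : ∀ t, Function.Bijective (fun p => p + σ t • X p) := by
    intro t
    have h1 : ContDiff ℝ ∞ (fun p => p + σ t • X p) := contDiff_id.add (hs.const_smul (σ t))
    refine bijective_of_compact h1 ?_ hKc (fun x hx => by rw [hK x hx]; simp)
    intro p u hu
    have hd : HasFDerivAt (fun p => p + σ t • X p)
        (ContinuousLinearMap.id ℝ E + σ t • fderiv ℝ X p) p :=
      (hasFDerivAt_id p).add ((hXd p).const_smul (σ t))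
    rw [hd.fderiv] at hu
    exact hinj t p u (by simpa using hu)
  have hbij : Function.Bijective f := by
    constructor
    · rintro ⟨t, p⟩ ⟨s, q⟩ h
      have h1 : t = s := (Prod.ext_iff.1 h).1
      subst h1
      have h2 : p + σ t • X p = q + σ t • X q := (Prod.ext_iff.1 h).2
      rw [(hslice t).1 h2]
    · rintro ⟨t, q⟩
      obtain ⟨p, hp⟩ := (hslice t).2 q
      exact ⟨(t, p), Prod.ext rfl hp⟩
  have hker : ∀ x v, fderiv ℝ f x v = 0 → v = 0 := by
    rintro ⟨t, p⟩ ⟨τ, u⟩ h
    have hfd : HasFDerivAt f (fderiv ℝ f (t, p)) (t, p) :=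
      (hf.differentiable (by simp)).differentiableAt.hasFDerivAt
    -- first component
    have h1 : HasFDerivAt (fun q : ℝ × E => (f q).1)
        ((ContinuousLinearMap.fst ℝ ℝ E).comp (fderiv ℝ f (t, p))) (t, p) := hfd.fst
    have h1' : HasFDerivAt (fun q : ℝ × E => (f q).1) (ContinuousLinearMap.fst ℝ ℝ E) (t, p) :=
      hasFDerivAt_fst
    have h1u := congrArg (fun T : (ℝ × E) →L[ℝ] ℝ => T (τ, u)) (h1.unique h1')
    simp only [ContinuousLinearMap.comp_apply, h, map_zero, ContinuousLinearMap.coe_fst'] at h1u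
    have hτ : τ = 0 := h1u.symm
    subst hτ
    -- slice
    have h2 : HasFDerivAt (fun q : E => f (t, q))
        ((fderiv ℝ f (t, p)).comp (ContinuousLinearMap.inr ℝ ℝ E)) p := by
      have hpair : HasFDerivAt (fun q : E => ((t, q) : ℝ × E)) (ContinuousLinearMap.inr ℝ ℝ E) p :=
        hasFDerivAt_prodMk_right t p
      exact HasFDerivAt.comp p hfd hpair
    have h2' : HasFDerivAt (fun q : E => (f (t, q)).2)
        ((ContinuousLinearMap.snd ℝ ℝ E).comp
          ((fderiv ℝ f (t, p)).comp (ContinuousLinearMap.inr ℝ ℝ E))) p := h2.snd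
    have h3 : HasFDerivAt (fun q : E => (f (t, q)).2)
        (ContinuousLinearMap.id ℝ E + σ t • fderiv ℝ X p) p :=
      (hasFDerivAt_id p).add ((hXd p).const_smul (σ t))
    have h2u := congrArg (fun T : E →L[ℝ] E => T u) (h2'.unique h3)
    simp only [ContinuousLinearMap.comp_apply, ContinuousLinearMap.inr_apply, h, map_zero] at h2u
    have : u = 0 := hinj t p u (by simpa using h2u.symm)
    rw [this]
    rfl
  obtain ⟨h, hh, h1, h2⟩ := diffeo_of_bijective hf hker hbij
  exact ⟨h, fun t p => hh (t, p), h1, h2⟩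

/-- The Cayley family of a field `X` with `DX ∈ sp`, under the sharp invertibility condition. -/
theorem cayley_family_global (B : E →ₗ[ℝ] E →ₗ[ℝ] ℝ) (K : Compacts E) (X : E → E)
    (hs : ContDiff ℝ ∞ X) (hK : ∀ p ∉ K, X p = 0)
    (hsp : ∀ p u v, B (fderiv ℝ X p u) v + B u (fderiv ℝ X p v) = 0)
    (hp : ∀ s : ℝ, 0 ≤ s → s ≤ 1/2 → ∀ p u, u + s • fderiv ℝ X p u = 0 → u = 0)
    (hm : ∀ s : ℝ, 0 ≤ s → s ≤ 1/2 → ∀ p u, u + (-s) • fderiv ℝ X p u = 0 → u = 0) :
    ∃ Ψ : ℝ → SympIn (fun v w => B v w) K,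
      ContDiff ℝ ∞ (fun q : ℝ × E => (Ψ q.1).1.1 q.2) ∧
      ∀ t p, (Ψ t).1.1 (p + (-((1/2) * Real.sin t ^ 2)) • X p) =
        p + ((1/2) * Real.sin t ^ 2) • X p := by
  have hsin : ∀ t : ℝ, 0 ≤ (1/2) * Real.sin t ^ 2 ∧ (1/2) * Real.sin t ^ 2 ≤ 1/2 := by
    intro t
    have := Real.sin_sq_le_one t
    constructor
    · positivity
    · linarith
  have hσ : ContDiff ℝ ∞ (fun t : ℝ => (1/2) * Real.sin t ^ 2) :=
    contDiff_const.mul (Real.contDiff_sin.pow 2)
  obtain ⟨Hp, Hp1, Hp2, Hp3⟩ := perturb_family X hs K K.isCompact hK _ hσ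
    (fun t p u => hp _ (hsin t).1 (hsin t).2 p u)
  obtain ⟨Hm, Hm1, Hm2, Hm3⟩ := perturb_family X hs K K.isCompact hK
    (fun t => -((1/2) * Real.sin t ^ 2)) hσ.neg (fun t p u => hm _ (hsin t).1 (hsin t).2 p u)
  have Hm4 : ∀ t z, Hm.symm (t, z) = (t, (Hm.symm (t, z)).2) := by
    intro t z
    have h := Hm1 (Hm.symm (t, z)).1 (Hm.symm (t, z)).2
    rw [Prod.mk.eta, Homeomorph.apply_symm_apply] at h
    exact Prod.ext (Prod.ext_iff.1 h).1.symm rfl
  have Hp4 : ∀ t z, Hp.symm (t, z) = (t, (Hp.symm (t, z)).2) := by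
    intro t z
    have h := Hp1 (Hp.symm (t, z)).1 (Hp.symm (t, z)).2
    rw [Prod.mk.eta, Homeomorph.apply_symm_apply] at h
    exact Prod.ext (Prod.ext_iff.1 h).1.symm rfl
  let F : ℝ → E → E := fun t z => (Hp (Hm.symm (t, z))).2
  let G : ℝ → E → E := fun t z => (Hm (Hp.symm (t, z))).2
  have hF1 : ∀ t z, Hp (Hm.symm (t, z)) = (t, F t z) := by
    intro t z
    have : Hp (Hm.symm (t, z)) = Hp (t, (Hm.symm (t, z)).2) := by rw [← Hm4]
    refine Prod.ext ?_ rfl
    rw [this, Hp1]
  have hG1 : ∀ t z, Hm (Hp.symm (t, z)) = (t, G t z) := by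
    intro t z
    have : Hm (Hp.symm (t, z)) = Hm (t, (Hp.symm (t, z)).2) := by rw [← Hp4]
    refine Prod.ext ?_ rfl
    rw [this, Hm1]
  have hGF : ∀ t z, G t (F t z) = z := by
    intro t z
    have h : Hm (Hp.symm (t, F t z)) = (t, z) := by
      rw [← hF1, Homeomorph.symm_apply_apply, Homeomorph.apply_symm_apply]
    rw [hG1] at h
    exact (Prod.ext_iff.1 h).2
  have hFG : ∀ t z, F t (G t z) = z := by
    intro t z
    have h : Hp (Hm.symm (t, G t z)) = (t, z) := by
      rw [← hG1, Homeomorph.symm_apply_apply, Homeomorph.apply_symm_apply]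
    rw [hF1] at h
    exact (Prod.ext_iff.1 h).2
  have hFs : ContDiff ℝ ∞ (fun q : ℝ × E => F q.1 q.2) := contDiff_snd.comp (Hp2.comp Hm3)
  have hGs : ContDiff ℝ ∞ (fun q : ℝ × E => G q.1 q.2) := contDiff_snd.comp (Hm2.comp Hp3)
  have hFt : ∀ t, ContDiff ℝ ∞ (F t) := fun t => hFs.comp (contDiff_const.prodMk contDiff_id)
  have hGt : ∀ t, ContDiff ℝ ∞ (G t) := fun t => hGs.comp (contDiff_const.prodMk contDiff_id)
  have hFp : ∀ t p, F t (p + (-((1/2) * Real.sin t ^ 2)) • X p) =
      p + ((1/2) * Real.sin t ^ 2) • X p := by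
    intro t p
    have h : Hp (Hm.symm (t, p + (-((1/2) * Real.sin t ^ 2)) • X p)) =
        (t, p + ((1/2) * Real.sin t ^ 2) • X p) := by
      rw [← Hm1, Homeomorph.symm_apply_apply, Hp1]
    rw [hF1] at h
    exact (Prod.ext_iff.1 h).2
  have hsupp : ∀ t, ∀ z ∉ K, F t z = z := by
    intro t z hz
    have := hFp t z
    rw [hK z hz] at this
    simpa using this
  have hsym : ∀ t z v w, B (fderiv ℝ (F t) z v) (fderiv ℝ (F t) z w) = B v w := by
    intro t z v w
    obtain ⟨p, rfl⟩ : ∃ p, z = p + (-((1/2) * Real.sin t ^ 2)) • X p := by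
      refine ⟨(Hm.symm (t, z)).2, ?_⟩
      have h := Hm1 t (Hm.symm (t, z)).2
      rw [← Hm4, Homeomorph.apply_symm_apply] at h
      exact (Prod.ext_iff.1 h).2
    obtain ⟨hs0, hs1⟩ := hsin t
    have hF' := hFp t
    set s : ℝ := (1/2) * Real.sin t ^ 2 with hsdef
    have hdX : HasFDerivAt X (fderiv ℝ X p) p :=
      (hs.differentiable (by simp)).differentiableAt.hasFDerivAt
    have hd1 : HasFDerivAt (fun p => p + (-s) • X p)
        (ContinuousLinearMap.id ℝ E + (-s) • fderiv ℝ X p) p :=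
      (hasFDerivAt_id p).add (hdX.const_smul (-s))
    have hd2 : HasFDerivAt (fun p => p + s • X p)
        (ContinuousLinearMap.id ℝ E + s • fderiv ℝ X p) p :=
      (hasFDerivAt_id p).add (hdX.const_smul s)
    have hdF : HasFDerivAt (F t) (fderiv ℝ (F t) (p + (-s) • X p)) (p + (-s) • X p) :=
      ((hFt t).differentiable (by simp)).differentiableAt.hasFDerivAt
    have hcomp := hdF.comp p hd1
    have heq : (F t) ∘ (fun p => p + (-s) • X p) = fun p => p + s • X p := by
      funext q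
      exact hF' q
    rw [heq] at hcomp
    have huniq := hcomp.unique hd2
    have hkey : ∀ u, fderiv ℝ (F t) (p + (-s) • X p) (u + (-s) • fderiv ℝ X p u) =
        u + s • fderiv ℝ X p u := by
      intro u
      have := congrArg (fun T : E →L[ℝ] E => T u) huniq
      simpa using this
    obtain ⟨e, he⟩ := exists_equiv_of_injective (ContinuousLinearMap.id ℝ E + (-s) • fderiv ℝ X p)
      (fun u hu => hm s hs0 hs1 p u (by simpa using hu))
    have hsurj : ∀ v, ∃ u, u + (-s) • fderiv ℝ X p u = v := by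
      intro v
      refine ⟨e.symm v, ?_⟩
      have := congrArg (fun T : E →L[ℝ] E => T (e.symm v)) he
      simp only [ContinuousLinearEquiv.coe_coe, ContinuousLinearEquiv.apply_symm_apply] at this
      conv_rhs => rw [this]
      simp
    obtain ⟨v', rfl⟩ := hsurj v
    obtain ⟨w', rfl⟩ := hsurj w
    rw [hkey, hkey]
    have h0 := hsp p v' w'
    simp only [map_add, map_smul, LinearMap.add_apply, LinearMap.smul_apply, smul_eq_mul]
    linear_combination (2 * s) * h0
  refine ⟨fun t => ⟨⟨⟨F t, G t, hGF t, hFG t⟩, hFt t, hGt t, hsym t, K, hsupp t⟩, hsupp t⟩, hFs,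
    hFp⟩

/-- A compactly supported symplectomorphism whose differentials have no negative real eigenvalue
lies in the path component of the identity. -/
theorem joined_of_no_reversal (B : E →ₗ[ℝ] E →ₗ[ℝ] ℝ) (φ : SympCt (fun v w => B v w))
    (hrev : ∀ z v, v ≠ 0 → ∀ c : ℝ, 0 < c → fderiv ℝ φ.1 z v ≠ -(c • v)) :
    Joined 1 φ := by
  obtain ⟨φ, hφ1, hφ2, hφ3, K, hφ4⟩ := φ
  change ∀ z v, v ≠ 0 → ∀ c : ℝ, 0 < c → fderiv ℝ φ z v ≠ -(c • v) at hrev
  let g : E → E := fun z => φ z - z
  have hgs : ContDiff ℝ ∞ g := hφ1.sub contDiff_id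
  have hφd : ∀ z, HasFDerivAt φ (fderiv ℝ φ z) z := fun z =>
    (hφ1.differentiable (by simp)).differentiableAt.hasFDerivAt
  have hgd : ∀ z, HasFDerivAt g (fderiv ℝ φ z - ContinuousLinearMap.id ℝ E) z := fun z =>
    (hφd z).sub (hasFDerivAt_id z)
  have hinv : ∀ z v, fderiv ℝ φ z v = 0 → v = 0 := by
    intro z v hv
    have hd : (fderiv ℝ φ.symm (φ z)).comp (fderiv ℝ φ z) = ContinuousLinearMap.id ℝ E := by
      rw [← fderiv_comp z (hφ2.differentiable (by simp)).differentiableAt
        (hφ1.differentiable (by simp)).differentiableAt]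
      have : (φ.symm : E → E) ∘ φ = id := funext fun x => φ.symm_apply_apply x
      rw [this, fderiv_id]
    have := congrArg (fun T : E →L[ℝ] E => T v) hd
    simpa [hv] using this.symm
  -- the midpoint map
  let m : E → E := fun z => z + (1/2 : ℝ) • g z
  have hms : ContDiff ℝ ∞ m := contDiff_id.add (hgs.const_smul _)
  have hmd : ∀ z, HasFDerivAt m (ContinuousLinearMap.id ℝ E +
      (1/2 : ℝ) • (fderiv ℝ φ z - ContinuousLinearMap.id ℝ E)) z := fun z =>
    (hasFDerivAt_id z).add ((hgd z).const_smul _)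
  have hmk : ∀ x v, fderiv ℝ m x v = 0 → v = 0 := by
    intro z v hv
    rw [(hmd z).fderiv] at hv
    by_contra hne
    refine hrev z v hne 1 one_pos ?_
    have h1 : v + (1/2 : ℝ) • (fderiv ℝ φ z v - v) = 0 := by simpa using hv
    have h2 : (2 : ℝ) • (v + (1/2 : ℝ) • (fderiv ℝ φ z v - v)) = v + fderiv ℝ φ z v := by
      module
    rw [h1, smul_zero] at h2
    rw [one_smul]
    exact eq_neg_of_add_eq_zero_right h2.symm
  have hmid : ∀ x ∉ K, m x = x := fun x hx => by
    change x + (1/2 : ℝ) • (φ x - x) = x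
    rw [hφ4 x hx]; simp
  obtain ⟨h, hh, hs1, hs2⟩ := diffeo_of_bijective hms hmk
    (bijective_of_compact hms hmk K.isCompact hmid)
  let K' : Compacts E := ⟨(K : Set E) ∪ h '' K, K.isCompact.union (K.isCompact.image h.continuous)⟩
  let X : E → E := fun p => g (h.symm p)
  have hXs : ContDiff ℝ ∞ X := hgs.comp hs2
  have hXK : ∀ p ∉ K', X p = 0 := by
    intro p hp
    have hz : h.symm p ∉ K := by
      intro hz
      apply hp
      exact Or.inr ⟨h.symm p, hz, h.apply_symm_apply p⟩
    change φ (h.symm p) - h.symm p = 0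
    rw [hφ4 _ hz, sub_self]
  -- the key identity `DX (u + (Au - u)/2) = A u - u`
  have hkey : ∀ z u, fderiv ℝ X (h z) (u + (1/2 : ℝ) • (fderiv ℝ φ z u - u)) =
      fderiv ℝ φ z u - u := by
    intro z u
    have hXd : HasFDerivAt X (fderiv ℝ X (h z)) (h z) :=
      (hXs.differentiable (by simp)).differentiableAt.hasFDerivAt
    have hhd : HasFDerivAt h (ContinuousLinearMap.id ℝ E +
        (1/2 : ℝ) • (fderiv ℝ φ z - ContinuousLinearMap.id ℝ E)) z := by
      have : (h : E → E) = m := funext hh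
      rw [this]; exact hmd z
    have hc := hXd.comp z hhd
    have heq : X ∘ h = g := by
      funext x
      simp [X]
    rw [heq] at hc
    have huniq := hc.unique (hgd z)
    have := congrArg (fun T : E →L[ℝ] E => T u) huniq
    simpa using this
  have hsurj : ∀ z v, ∃ u, u + (1/2 : ℝ) • (fderiv ℝ φ z u - u) = v := by
    intro z v
    obtain ⟨e, he⟩ := exists_equiv_of_injective _ (hmk z)
    refine ⟨e.symm v, ?_⟩
    have := congrArg (fun T : E →L[ℝ] E => T (e.symm v)) he
    simp only [ContinuousLinearEquiv.coe_coe, ContinuousLinearEquiv.apply_symm_apply] at this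
    rw [(hmd z).fderiv] at this
    conv_rhs => rw [this]
    simp
  have hXsp : ∀ p u v, B (fderiv ℝ X p u) v + B u (fderiv ℝ X p v) = 0 := by
    intro p u v
    obtain ⟨z, rfl⟩ := h.surjective p
    obtain ⟨u', rfl⟩ := hsurj z u
    obtain ⟨v', rfl⟩ := hsurj z v
    rw [hkey, hkey]
    have h9 := hφ3 z u' v'
    simp only at h9
    simp only [map_add, map_sub, map_smul, LinearMap.add_apply, LinearMap.sub_apply,
      LinearMap.smul_apply, smul_eq_mul]
    linear_combination h9
  obtain ⟨Ψ, hΨ1, hΨ2⟩ := cayley_family_global B K' X hXs hXK hXsp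
    (by
      intro s hs0 hs1 p u hu
      obtain ⟨z, rfl⟩ := h.surjective p
      obtain ⟨u', rfl⟩ := hsurj z u
      rw [hkey] at hu
      -- (1 + 2 s) A u' = - (1 - 2 s) u'
      have h1 : (1 + 2 * s) • fderiv ℝ φ z u' = -((1 - 2 * s) • u') := by
        have h2 : (2 : ℝ) • (u' + (1/2 : ℝ) • (fderiv ℝ φ z u' - u') + s • (fderiv ℝ φ z u' - u'))
          = (1 + 2 * s) • fderiv ℝ φ z u' + (1 - 2 * s) • u' := by module
        rw [hu, smul_zero] at h2
        exact eq_neg_of_add_eq_zero_left h2.symm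
      have hu' : u' = 0 := by
        by_contra hne
        rcases hs1.eq_or_lt with hs1 | hs1
        · rw [hs1] at h1
          norm_num at h1
          exact hne (hinv z u' h1)
        · refine hrev z u' hne ((1 - 2 * s) / (1 + 2 * s)) (div_pos (by linarith) (by linarith)) ?_
          have h3 : fderiv ℝ φ z u' = (1 + 2 * s)⁻¹ • ((1 + 2 * s) • fderiv ℝ φ z u') := by
            rw [smul_smul, inv_mul_cancel₀ (by linarith), one_smul]
          rw [h3, h1, smul_neg, smul_smul, div_eq_inv_mul]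
      rw [hu']
      simp)
    (by
      intro s hs0 hs1 p u hu
      obtain ⟨z, rfl⟩ := h.surjective p
      obtain ⟨u', rfl⟩ := hsurj z u
      rw [hkey] at hu
      -- (1 - 2 s) A u' = - (1 + 2 s) u'
      have h1 : (1 - 2 * s) • fderiv ℝ φ z u' = -((1 + 2 * s) • u') := by
        have h2 : (2 : ℝ) • (u' + (1/2 : ℝ) • (fderiv ℝ φ z u' - u') + (-s) • (fderiv ℝ φ z u' - u'))
          = (1 - 2 * s) • fderiv ℝ φ z u' + (1 + 2 * s) • u' := by module
        rw [hu, smul_zero] at h2
        exact eq_neg_of_add_eq_zero_left h2.symm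
      have hu' : u' = 0 := by
        by_contra hne
        rcases hs1.eq_or_lt with hs1 | hs1
        · rw [hs1] at h1
          norm_num at h1
          exact hne h1
        · refine hrev z u' hne ((1 + 2 * s) / (1 - 2 * s)) (div_pos (by linarith) (by linarith)) ?_
          have h3 : fderiv ℝ φ z u' = (1 - 2 * s)⁻¹ • ((1 - 2 * s) • fderiv ℝ φ z u') := by
            rw [smul_smul, inv_mul_cancel₀ (by linarith), one_smul]
          rw [h3, h1, smul_neg, smul_smul, div_eq_inv_mul]
      rw [hu']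
      simp)
  have hc : Continuous (fun t => (Ψ t).1) := (continuous_incl _ K').comp (continuous_family _ K' _ hΨ1)
  refine ⟨⟨⟨fun s : unitInterval => (Ψ ((s : ℝ) * (Real.pi / 2))).1, ?_⟩, ?_, ?_⟩⟩
  · exact hc.comp (continuous_subtype_val.mul continuous_const)
  · apply Subtype.ext
    apply Equiv.ext
    intro z
    have := hΨ2 0 z
    simpa using this
  · apply Subtype.ext
    apply Equiv.ext
    intro z
    have := hΨ2 (Real.pi / 2) (h z)
    rw [Real.sin_pi_div_two] at this
    have hXh : X (h z) = φ z - z := by simp [X, g]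
    have e1 : h z + (-((1/2 : ℝ) * 1 ^ 2)) • X (h z) = z := by
      rw [hXh, hh]
      simp only [m, g]
      module
    have e2 : h z + ((1/2 : ℝ) * 1 ^ 2) • X (h z) = φ z := by
      rw [hXh, hh]
      simp only [m, g]
      module
    rw [e1, e2] at this
    simpa using this

end Pool.Agent.Y459.Symp
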