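import Pool.Agent.Y459.Symp.Cayley

set_option autoImplicit false

open Set Filter Topology TopologicalSpace
open scoped ContDiff NNReal Distributions

namespace Pool.Agent.Y459.Symp

variable {E : Type*} [NormedAddCommGroup E] [NormedSpace ℝ E]
variable {F : Type*} [NormedAddCommGroup F] [NormedSpace ℝ F]

/-- Iterated partial derivatives of a jointly smooth map are jointly smooth. -/
theorem contDiff_iteratedFDeriv_param (f : ℝ → E → F)
    (hf : ContDiff ℝ ∞ (fun q : ℝ × E => f q.1 q.2)) (i : ℕ) :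
    ContDiff ℝ ∞ (fun q : ℝ × E => iteratedFDeriv ℝ i (f q.1) q.2) := by
  induction i with
  | zero =>
    exact hf.continuousLinearMap_comp
      ((continuousMultilinearCurryFin0 ℝ E F).symm : _ →L[ℝ] E [×0]→L[ℝ] F)
  | succ i ih =>
    have h1 : ContDiff ℝ ∞ (fun q : ℝ × E => fderiv ℝ (iteratedFDeriv ℝ i (f q.1)) q.2) := by
      refine ContDiff.fderiv (m := ∞) (f := fun q : ℝ × E => iteratedFDeriv ℝ i (f q.1))
        (g := fun q : ℝ × E => q.2) ?_ contDiff_snd (by simp)
      change ContDiff ℝ ∞ (fun r : (ℝ × E) × E => iteratedFDeriv ℝ i (f r.1.1) r.2)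
      exact ih.comp ((contDiff_fst.comp contDiff_fst).prodMk contDiff_snd)
    exact h1.continuousLinearMap_comp
      ((continuousMultilinearCurryLeftEquiv ℝ (fun _ : Fin (i + 1) ↦ E) F).symm :
        _ →L[ℝ] E [×(i + 1)]→L[ℝ] F)

/-- A family of maps supported in `K` whose iterated derivatives are all jointly continuous is
continuous for the `C^∞` topology. -/
theorem continuous_of_joint {T : Type*} [TopologicalSpace T] (K : Compacts E) (f : T → 𝓓_{K}(E, F))
    (h : ∀ i : ℕ, Continuous (fun q : T × E => iteratedFDeriv ℝ i (f q.1) q.2)) : Continuous f := by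
  rw [ContDiffMapSupportedIn.continuous_iff_comp]
  intro i
  rw [continuous_iff_continuousAt]
  intro t
  rw [Metric.continuousAt_iff']
  intro ε hε
  have hcont : ContinuousOn (Function.uncurry fun (s : T) (z : E) => iteratedFDeriv ℝ i (f s) z)
      (univ ×ˢ (K : Set E)) := (h i).continuousOn
  obtain ⟨w, hw, hw2⟩ := K.isCompact.mem_uniformity_of_prod (q := t) hcont (mem_univ t)
    (Metric.dist_mem_uniformity (half_pos hε))
  rw [nhdsWithin_univ] at hw
  filter_upwards [hw] with s hs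
  refine lt_of_le_of_lt ?_ (half_lt_self hε)
  rw [BoundedContinuousFunction.dist_le (by positivity)]
  intro z
  simp only [Function.comp_apply, ContDiffMapSupportedIn.structureMapCLM_top_apply]
  by_cases hz : z ∈ K
  · have := hw2 s hs z hz
    exact le_of_lt this
  · rw [(f s).iteratedFDeriv_zero_on_compl hz, (f t).iteratedFDeriv_zero_on_compl hz]
    simp only [Pi.zero_apply, dist_self]
    positivity

theorem continuous_family (Ω : E → E → ℝ) (K : Compacts E) (Ψ : ℝ → SympIn Ω K)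
    (h : ContDiff ℝ ∞ (fun q : ℝ × E => (Ψ q.1).1.1 q.2)) : Continuous Ψ := by
  rw [continuous_induced_rng]
  refine continuous_of_joint K _ fun i => ?_
  refine (contDiff_iteratedFDeriv_param (fun t z => (Ψ t).1.1 z - z) ?_ i).continuous
  exact h.sub contDiff_snd

/-- The product of two symplectomorphisms supported in `K`. -/
def mulIn {Ω : E → E → ℝ} {K : Compacts E} (φ ψ : SympIn Ω K) : SympIn Ω K :=
  ⟨φ.1 * ψ.1, fun z hz => by
    change φ.1.1 (ψ.1.1 z) = z
    rw [ψ.2 z hz, φ.2 z hz]⟩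

/-- The inverse. -/
def invIn {Ω : E → E → ℝ} {K : Compacts E} (φ : SympIn Ω K) : SympIn Ω K :=
  ⟨φ.1⁻¹, fun z hz => by
    change φ.1.1.symm z = z
    rw [Equiv.symm_apply_eq, φ.2 z hz]⟩

/-- Two symplectomorphisms with the same convex compact support that are `C^1`-close are joined by
a path. -/
theorem joined_of_close [CompleteSpace E] (B : E →ₗ[ℝ] E →ₗ[ℝ] ℝ) (K : Compacts E)
    (hconv : Convex ℝ (K : Set E)) (φ φ' : SympIn (fun v w => B v w) K)
    (h0 : ∀ z, ‖φ'.1.1 z - φ.1.1 z‖ ≤ 1/4)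
    (h1 : ∀ z, ‖(fderiv ℝ φ'.1.1 z - fderiv ℝ φ.1.1 z).comp (fderiv ℝ φ.1.1.symm (φ.1.1 z))‖ ≤ 1/8) :
    Joined φ φ' := by
  let ψ : SympIn (fun v w => B v w) K := mulIn φ' (invIn φ)
  have hψ : ∀ w, ψ.1.1 w = φ'.1.1 (φ.1.1.symm w) := fun w => rfl
  have hφ1 := φ.1.2.1
  have hφ2 := φ.1.2.2.1
  have hφ'1 := φ'.1.2.1
  obtain ⟨X, hX1, hX2, hX3, hX4, hX5, hX6⟩ := exists_field B K hconv ψ
    (fun w => by
      rw [hψ]
      have := h0 (φ.1.1.symm w)
      rwa [Equiv.apply_symm_apply] at this)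
    (fun w => by
      have hcoe : (ψ.1.1 : E → E) = φ'.1.1 ∘ φ.1.1.symm := funext hψ
      rw [hcoe, fderiv_comp w (hφ'1.differentiable (by simp)).differentiableAt
        (hφ2.differentiable (by simp)).differentiableAt]
      have hid : (fderiv ℝ φ.1.1 (φ.1.1.symm w)).comp (fderiv ℝ φ.1.1.symm w)
          = ContinuousLinearMap.id ℝ E := by
        rw [← fderiv_comp w (hφ1.differentiable (by simp)).differentiableAt
          (hφ2.differentiable (by simp)).differentiableAt]
        have : (φ.1.1 : E → E) ∘ φ.1.1.symm = id := funext fun x => φ.1.1.apply_symm_apply x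
        rw [this, fderiv_id]
      rw [← hid]
      have := h1 (φ.1.1.symm w)
      rw [Equiv.apply_symm_apply, ContinuousLinearMap.sub_comp] at this
      exact this)
  obtain ⟨Ψ, hΨ1, hΨ2⟩ := cayley_family B K X hX1 (1/4) hX2 le_rfl hX3 hX4 hX5
  have hc : Continuous (fun t => mulIn (Ψ t) φ) := by
    refine continuous_family _ K _ ?_
    change ContDiff ℝ ∞ (fun q : ℝ × E => (Ψ q.1).1.1 (φ.1.1 q.2))
    exact hΨ1.comp (contDiff_fst.prodMk (hφ1.comp contDiff_snd))
  have e0 : mulIn (Ψ 0) φ = φ := by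
    apply Subtype.ext
    apply Subtype.ext
    apply Equiv.ext
    intro z
    change (Ψ 0).1.1 (φ.1.1 z) = φ.1.1 z
    have := hΨ2 0 (φ.1.1 z)
    simpa using this
  have e1 : mulIn (Ψ (Real.pi / 2)) φ = φ' := by
    apply Subtype.ext
    apply Subtype.ext
    apply Equiv.ext
    intro z
    change (Ψ (Real.pi / 2)).1.1 (φ.1.1 z) = φ'.1.1 z
    obtain ⟨p, hp1, hp2⟩ := hX6 (φ.1.1 z)
    have := hΨ2 (Real.pi / 2) p
    rw [Real.sin_pi_div_two, mul_one, mul_one, hp1, hp2, hψ, Equiv.symm_apply_apply] at this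
    exact this
  refine ⟨⟨⟨fun s : unitInterval => mulIn (Ψ ((s : ℝ) * (Real.pi / 2))) φ, ?_⟩, ?_, ?_⟩⟩
  · exact hc.comp (continuous_subtype_val.mul continuous_const)
  · simp [e0]
  · simp [e1]

end Pool.Agent.Y459.Symp
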